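import Pool.Agent.K3h43.DSL.Stm

/-! MP_ec2393_nt: brick A (multiplication rule of `ev`, relations of the Lie elements). -/

set_option autoImplicit false

namespace Pool.Agent.K3h8.DSL

open Pool.Agent.H777R4.DM Pool.Agent.R241.DL Pool.Agent.K3h43.DSL

lemma evL_nil (u : List (Fin 2)) : evL [] u = 0 := by
  cases u <;> rfl

lemma evL_one (z : ℚ) (zs : List ℚ) (u : List (Fin 2)) :
    evL (z :: zs) (1 :: u) = z * evL (z :: zs) u := by
  rw [evL, if_pos rfl]

lemma evL_zero (z : ℚ) (zs : List ℚ) (u : List (Fin 2)) :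
    evL (z :: zs) (0 :: u) = evL zs u := by
  rw [evL, if_neg (by decide)]

lemma evL_append (u v : List (Fin 2)) : ∀ L : List ℚ,
    evL L (u ++ v) = ∑ i ∈ Finset.range L.length, evL (L.take (i + 1)) u * evL (L.drop i) v := by
  induction u with
  | nil =>
    intro L
    rcases L with _ | ⟨z, zs⟩
    · simp [evL_nil]
    · rw [List.nil_append, List.length_cons, Finset.sum_range_succ']
      have h : ∀ i ∈ Finset.range zs.length,
          evL (List.take (i + 1 + 1) (z :: zs)) [] * evL (List.drop (i + 1) (z :: zs)) v = 0 := by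
        intro i hi
        rcases zs with _ | ⟨w, ws⟩
        · simp at hi
        · simp [evL]
      rw [Finset.sum_eq_zero h]
      simp [evL]
  | cons i u ih =>
    intro L
    rcases L with _ | ⟨z, zs⟩
    · simp [evL_nil]
    · have hi : i = 1 ∨ i = 0 := by omega
      rcases hi with rfl | rfl
      · rw [List.cons_append, evL_one, ih, Finset.mul_sum]
        apply Finset.sum_congr rfl
        intro j _
        rw [List.take_succ_cons, evL_one, mul_assoc]
      · rw [List.cons_append, evL_zero, ih, List.length_cons, Finset.sum_range_succ']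
        rw [List.take_succ_cons, List.take_zero, evL_zero, evL_nil, zero_mul, add_zero]
        apply Finset.sum_congr rfl
        intro j _
        rw [List.take_succ_cons, evL_zero, List.drop_succ_cons]

/-- brick A1 -/
theorem t_EvMul : EvMul := by
  intro L f g
  induction f using al_induction with
  | h1 u =>
    induction g using al_induction with
    | h1 v =>
      unfold ev
      rw [wd_mul, lext_wd, evL_append]
      apply Finset.sum_congr rfl
      intro i _
      rw [lext_wd, lext_wd]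
    | h2 P Q hP hQ =>
      rw [mul_add, map_add, hP, hQ, ← Finset.sum_add_distrib]
      apply Finset.sum_congr rfl
      intro i _
      rw [map_add, mul_add]
    | h3 c P hP =>
      rw [mul_smul_comm, map_smul, hP, Finset.smul_sum]
      apply Finset.sum_congr rfl
      intro i _
      rw [map_smul, mul_smul_comm]
  | h2 P Q hP hQ =>
    rw [add_mul, map_add, hP, hQ, ← Finset.sum_add_distrib]
    apply Finset.sum_congr rfl
    intro i _
    rw [map_add, add_mul]
  | h3 c P hP =>
    rw [smul_mul_assoc, map_smul, hP, Finset.smul_sum]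
    apply Finset.sum_congr rfl
    intro i _
    rw [map_smul, smul_mul_assoc]

lemma m1 (a : ℚ) (f g : A) : ev [a] (f * g) = ev [a] f * ev [a] g := by
  rw [t_EvMul]; simp

lemma m2 (a b : ℚ) (f g : A) : ev [a, b] (f * g) =
    ev [a] f * ev [a, b] g + ev [a, b] f * ev [b] g := by
  rw [t_EvMul]; simp [Finset.sum_range_succ]

lemma m3 (a b c : ℚ) (f g : A) : ev [a, b, c] (f * g) =
    ev [a] f * ev [a, b, c] g + ev [a, b] f * ev [b, c] g + ev [a, b, c] f * ev [c] g := by
  rw [t_EvMul]; simp [Finset.sum_range_succ]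

lemma m4 (a b c d : ℚ) (f g : A) : ev [a, b, c, d] (f * g) =
    ev [a] f * ev [a, b, c, d] g + ev [a, b] f * ev [b, c, d] g + ev [a, b, c] f * ev [c, d] g +
      ev [a, b, c, d] f * ev [d] g := by
  rw [t_EvMul]; simp [Finset.sum_range_succ]

lemma m5 (a b c d e : ℚ) (f g : A) : ev [a, b, c, d, e] (f * g) =
    ev [a] f * ev [a, b, c, d, e] g + ev [a, b] f * ev [b, c, d, e] g +
      ev [a, b, c] f * ev [c, d, e] g + ev [a, b, c, d] f * ev [d, e] g +
      ev [a, b, c, d, e] f * ev [e] g := by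
  rw [t_EvMul]; simp [Finset.sum_range_succ]

section

variable {F : A} (hF : LieRel F)
include hF

lemma q1 {x y u : ℚ} (h : x = u + y) : ev [x, y] F = ev [u, 0] F := by
  have := hF.tr2 u 0 y
  rw [zero_add] at this
  rw [← this, h]

lemma q2 {x y z u v : ℚ} (h : x = u + z) (h' : y = v + z) : ev [x, y, z] F = ev [u, v, 0] F := by
  have := hF.tr3 u v 0 z
  rw [zero_add] at this
  rw [← this, h, h']

lemma q3 {x y z w u v t : ℚ} (h : x = u + w) (h' : y = v + w) (h'' : z = t + w) :
    ev [x, y, z, w] F = ev [u, v, t, 0] F := by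
  have := hF.tr4 u v t 0 w
  rw [zero_add] at this
  rw [← this, h, h', h'']

end

lemma lieRel_bracket {f g : A} (hf : LieRel f) (hg : LieRel g) : LieRel (f * g - g * f) := by
  obtain ⟨α, hα⟩ := hf.lin
  obtain ⟨β, hβ⟩ := hg.lin
  refine ⟨⟨0, fun z => ?_⟩, fun a b c => ?_, fun a b d c => ?_, fun a b d e c => ?_,
    fun a b d e i c => ?_, fun a b => ?_, fun a b c => ?_, fun a b c d => ?_⟩
  · rw [map_sub, m1, m1, hα, hβ]; ring
  · simp only [map_sub, m2, hα, hβ, hf.tr2, hg.tr2]; ring
  · simp only [map_sub, m3, hα, hβ, hf.tr2, hg.tr2, hf.tr3, hg.tr3]; ring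
  · simp only [map_sub, m4, hα, hβ, hf.tr2, hg.tr2, hf.tr3, hg.tr3, hf.tr4, hg.tr4]; ring
  · simp only [map_sub, m5, hα, hβ, hf.tr2, hg.tr2, hf.tr3, hg.tr3, hf.tr4, hg.tr4, hf.tr5,
      hg.tr5]
    ring
  · have e1 : ∀ F : A, LieRel F → ev [a + b, b] F = ev [a, 0] F := fun F h => q1 h (by ring)
    have e2 : ∀ F : A, LieRel F → ev [a + b, a] F = ev [b, 0] F := fun F h => q1 h (by ring)
    simp only [map_sub, m3, hα, hβ, e1 f hf, e1 g hg, e2 f hf, e2 g hg]
    linear_combination α * (a + b) * hg.sh2 a b - β * (a + b) * hf.sh2 a b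
  · have e1 : ∀ F : A, LieRel F → ev [a + b + c, b + c] F = ev [a, 0] F :=
      fun F h => q1 h (by ring)
    have e2 : ∀ F : A, LieRel F → ev [a + b + c, a + c] F = ev [b, 0] F :=
      fun F h => q1 h (by ring)
    have e3 : ∀ F : A, LieRel F → ev [a + b + c, b + c, c] F = ev [a + b, b, 0] F :=
      fun F h => q2 h (by ring) (by ring)
    have e4 : ∀ F : A, LieRel F → ev [a + b + c, a + c, c] F = ev [a + b, a, 0] F :=
      fun F h => q2 h (by ring) (by ring)
    have e5 : ∀ F : A, LieRel F → ev [a + b + c, a + c, a] F = ev [b + c, c, 0] F :=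
      fun F h => q2 h (by ring) (by ring)
    simp only [map_sub, m4, hα, hβ, e1 f hf, e1 g hg, e2 f hf, e2 g hg, e3 f hf, e3 g hg,
      e4 f hf, e4 g hg, e5 f hf, e5 g hg]
    linear_combination α * (a + b + c) * hg.sh3 a b c - β * (a + b + c) * hf.sh3 a b c +
      ev [c, 0] g * hf.sh2 a b - ev [c, 0] f * hg.sh2 a b +
      ev [b, 0] f * hg.sh2 a c - ev [b, 0] g * hf.sh2 a c
  · have e1 : ∀ F : A, LieRel F → ev [a + b + c + d, b + c + d] F = ev [a, 0] F :=
      fun F h => q1 h (by ring)
    have e2 : ∀ F : A, LieRel F → ev [a + b + c + d, a + c + d] F = ev [b, 0] F :=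
      fun F h => q1 h (by ring)
    have e3 : ∀ F : A, LieRel F → ev [a + b + c + d, b + c + d, c + d] F = ev [a + b, b, 0] F :=
      fun F h => q2 h (by ring) (by ring)
    have e4 : ∀ F : A, LieRel F → ev [a + b + c + d, a + c + d, c + d] F = ev [a + b, a, 0] F :=
      fun F h => q2 h (by ring) (by ring)
    have e5 : ∀ F : A, LieRel F → ev [a + b + c + d, a + c + d, a + d] F = ev [b + c, c, 0] F :=
      fun F h => q2 h (by ring) (by ring)
    have e6 : ∀ F : A, LieRel F → ev [a + b + c + d, b + c + d, c + d, d] F =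
        ev [a + b + c, b + c, c, 0] F := fun F h => q3 h (by ring) (by ring) (by ring)
    have e7 : ∀ F : A, LieRel F → ev [a + b + c + d, a + c + d, c + d, d] F =
        ev [a + b + c, a + c, c, 0] F := fun F h => q3 h (by ring) (by ring) (by ring)
    have e8 : ∀ F : A, LieRel F → ev [a + b + c + d, a + c + d, a + d, d] F =
        ev [a + b + c, a + c, a, 0] F := fun F h => q3 h (by ring) (by ring) (by ring)
    have e9 : ∀ F : A, LieRel F → ev [a + b + c + d, a + c + d, a + d, a] F =
        ev [b + c + d, c + d, d, 0] F := fun F h => q3 h (by ring) (by ring) (by ring)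
    simp only [map_sub, m5, hα, hβ, e1 f hf, e1 g hg, e2 f hf, e2 g hg, e3 f hf, e3 g hg,
      e4 f hf, e4 g hg, e5 f hf, e5 g hg, e6 f hf, e6 g hg, e7 f hf, e7 g hg, e8 f hf, e8 g hg,
      e9 f hf, e9 g hg]
    linear_combination α * (a + b + c + d) * hg.sh4 a b c d -
      β * (a + b + c + d) * hf.sh4 a b c d +
      ev [b, 0] f * hg.sh3 a c d - ev [b, 0] g * hf.sh3 a c d +
      ev [d, 0] g * hf.sh3 a b c - ev [d, 0] f * hg.sh3 a b c +
      ev [c + d, d, 0] g * hf.sh2 a b - ev [c + d, d, 0] f * hg.sh2 a b +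
      ev [b + c, c, 0] f * hg.sh2 a d - ev [b + c, c, 0] g * hf.sh2 a d

/-- brick A2 -/
theorem t_LieStr : LieStr := by
  intro f hf
  induction hf using LieSubalgebra.lieSpan_induction with
  | mem y hy =>
    rcases hy with rfl | hy
    · refine ⟨⟨0, fun z => ?_⟩, ?_, ?_, ?_, ?_, ?_, ?_, ?_⟩ <;> intros <;>
        simp [x, ev, lext_wd, evL]
    · rw [Set.mem_singleton_iff] at hy
      subst hy
      refine ⟨⟨1, fun z => ?_⟩, ?_, ?_, ?_, ?_, ?_, ?_, ?_⟩ <;> intros <;>
        simp [x, ev, lext_wd, evL]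
  | zero =>
    refine ⟨⟨0, fun z => ?_⟩, ?_, ?_, ?_, ?_, ?_, ?_, ?_⟩ <;> intros <;> simp
  | add y z _ _ hy hz =>
    obtain ⟨α, hα⟩ := hy.lin
    obtain ⟨β, hβ⟩ := hz.lin
    refine ⟨⟨α + β, fun t => ?_⟩, fun a b c => ?_, fun a b d c => ?_, fun a b d e c => ?_,
      fun a b d e i c => ?_, fun a b => ?_, fun a b c => ?_, fun a b c d => ?_⟩
    · rw [map_add, hα, hβ]; ring
    · rw [map_add, map_add, hy.tr2, hz.tr2]
    · rw [map_add, map_add, hy.tr3, hz.tr3]
    · rw [map_add, map_add, hy.tr4, hz.tr4]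
    · rw [map_add, map_add, hy.tr5, hz.tr5]
    · simp only [map_add]; linear_combination hy.sh2 a b + hz.sh2 a b
    · simp only [map_add]; linear_combination hy.sh3 a b c + hz.sh3 a b c
    · simp only [map_add]; linear_combination hy.sh4 a b c d + hz.sh4 a b c d
  | smul r y _ hy =>
    obtain ⟨α, hα⟩ := hy.lin
    refine ⟨⟨r * α, fun t => ?_⟩, fun a b c => ?_, fun a b d c => ?_, fun a b d e c => ?_,
      fun a b d e i c => ?_, fun a b => ?_, fun a b c => ?_, fun a b c d => ?_⟩
    · rw [map_smul, hα, smul_eq_mul]; ring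
    · rw [map_smul, map_smul, hy.tr2]
    · rw [map_smul, map_smul, hy.tr3]
    · rw [map_smul, map_smul, hy.tr4]
    · rw [map_smul, map_smul, hy.tr5]
    · simp only [map_smul, smul_eq_mul]; linear_combination r * hy.sh2 a b
    · simp only [map_smul, smul_eq_mul]; linear_combination r * hy.sh3 a b c
    · simp only [map_smul, smul_eq_mul]; linear_combination r * hy.sh4 a b c d
  | lie y z _ _ hy hz =>
    rw [LieRing.of_associative_ring_bracket]
    exact lieRel_bracket hy hz

end Pool.Agent.K3h8.DSL
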